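import Mathlib

/-!
A sentence of the forcing language of a preordered set `P` of conditions is represented by the
set of the conditions which force it. A name for a subset of a ground model set `X` is a map
`X → Set P` sending `x` to the set of the conditions attached to `x`.
-/

set_option autoImplicit false

namespace Pool.Agent.H909Z.Tk

universe v

variable {P : Type} [Preorder P]

/-- `p` forces `not φ` iff no `q ≤ p` forces `φ`. -/
def fnot (φ : Set P) : Set P := {p | ∀ q ≤ p, q ∉ φ}

/-- `p` forces `φ and ψ` iff it forces both. -/
def fand (φ ψ : Set P) : Set P := {p | p ∈ φ ∧ p ∈ ψ}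

/-- `p` forces `for all i, φ i` iff it forces every `φ i`. -/
def fall {ι : Sort v} (φ : ι → Set P) : Set P := {p | ∀ i, p ∈ φ i}

/-- `φ implies ψ` is `not (φ and not ψ)`. -/
def fimp (φ ψ : Set P) : Set P := fnot (fand φ (fnot ψ))

/-- `there is i with φ i` is `not for all i, not φ i`. -/
def fex {ι : Sort v} (φ : ι → Set P) : Set P := fnot (fall fun i => fnot (φ i))

/-- An absolute statement about ground model objects. -/
def fground (h : Prop) : Set P := {_p | h}

/-- `p` forces that the generic filter meets the set `N` of conditions. -/
def meets (N : Set P) : Set P := {p | ∀ q ≤ p, ∃ r ≤ q, ∃ s ∈ N, r ≤ s}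

/-- The extension has no new subsets of `ℕ` and no new sequences of ground model objects. -/
def NoNew (P : Type) [Preorder P] : Set P :=
  fand
    (fall fun x : ℕ → Set P => fex fun S : Set ℕ => fall fun n =>
      fand (fimp (meets (x n)) (fground (n ∈ S))) (fimp (fground (n ∈ S)) (meets (x n))))
    (fall fun X : Type => fall fun R : ℕ → X → Set P =>
      fimp (fall fun k => fex fun y => meets (R k y))
        (fex fun b : ℕ → X => fall fun k => meets (R k (b k))))

/-- The family of subsets of `ℕ` named by `U` is a nonprincipal ultrafilter. -/
def IsUltra (U : Set ℕ → Set P) : Set P :=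
  fand (fall fun S => fall fun _ : S.Finite => fnot (meets (U S)))
    (fand (fall fun S => fall fun T => fimp (fand (meets (U S)) (meets (U T))) (meets (U (S ∩ T))))
      (fand (fall fun S => fall fun T => fall fun _ : S ⊆ T => fimp (meets (U S)) (meets (U T)))
        (fall fun S => fimp (fnot (meets (U S))) (meets (U Sᶜ)))))

/-- `B` is above `A` for reverse inclusion. -/
def Sup (A B : Set ℕ) : Prop := B ⊆ A

/-- `B` is above `A` for reverse almost inclusion. -/
def SupStar (A B : Set ℕ) : Prop := (B \ A).Finite

/-- Every sequence of members of `U` has a pseudo-intersection in `U`. -/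
def PPoint (U : Set ℕ → Set P) : Set P :=
  fall fun A : ℕ → Set ℕ => fimp (fall fun k => meets (U (A k)))
    (fex fun B => fand (meets (U B)) (fground (∀ k, SupStar (A k) B)))

/-- Tukey reducibility of the set named by `D`, ordered by `le`, to the set named by `E`, ordered
by `le'`: a named function `R` from `D` to `E` such that every named subset `A` of `D` whose image
is bounded in `E` is bounded in `D`. -/
def TukeyLE {X Y : Type} (D : X → Set P) (le : X → X → Prop) (E : Y → Set P)
    (le' : Y → Y → Prop) : Set P :=
  fex fun R : X → Y → Set P =>
    fand (fall fun x => fimp (meets (D x)) (fex fun y => fand (meets (E y)) (meets (R x y))))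
      (fand (fall fun x => fall fun y => fall fun y' =>
          fimp (fand (meets (R x y)) (meets (R x y'))) (fground (y = y')))
        (fall fun A : X → Set P => fimp (fall fun x => fimp (meets (A x)) (meets (D x)))
          (fimp (fex fun c => fand (meets (E c)) (fall fun x => fall fun y =>
              fimp (fand (meets (A x)) (meets (R x y))) (fground (le' y c))))
            (fex fun b => fand (meets (D b)) (fall fun x =>
              fimp (meets (A x)) (fground (le x b)))))))

end Pool.Agent.H909Z.Tk
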