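import Mathlib
import Pool.Agent.H909Z.TkDefs

/-!
A space of the forcing extension is given by a name `S` for a subset of a ground model set `X`
(the points) and names `B i`, `i : I`, for subsets of `X`; the open sets are the unions of the
traces on `S` of the sets `B i`.
-/

set_option autoImplicit false

namespace Pool.Agent.H909Z.Tk

variable {P : Type} [Preorder P] {X I : Type}

/-- The point `x` has a basic neighbourhood all of whose points satisfy `φ`. -/
def Nbhd (S : X → Set P) (B : I → X → Set P) (x : X) (φ : X → Set P) : Set P :=
  fex fun i => fand (meets (B i x)) (fall fun y => fimp (fand (meets (S y)) (meets (B i y))) (φ y))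

/-- The trace on `S` of the set named by `O` is open. -/
def Opn (S : X → Set P) (B : I → X → Set P) (O : X → Set P) : Set P :=
  fall fun x => fimp (fand (meets (S x)) (meets (O x))) (Nbhd S B x fun y => meets (O y))

/-- The point `x` is in the closure of the trace on `S` of the set named by `A`. -/
def InCl (S : X → Set P) (B : I → X → Set P) (A : X → Set P) (x : X) : Set P :=
  fnot (Nbhd S B x fun y => fnot (meets (A y)))

/-- The basic sets cover and countable intersections of open sets are open. So the open sets form
a topology with base `B`, and it is a P-space. -/
def PSpace (S : X → Set P) (B : I → X → Set P) : Set P :=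
  fand (fall fun x => fimp (meets (S x)) (fex fun i => meets (B i x)))
    (fall fun O : ℕ → X → Set P => fimp (fall fun n => Opn S B (O n))
      (fall fun x => fimp (fand (meets (S x)) (fall fun n => meets (O n x)))
        (Nbhd S B x fun y => fall fun n => meets (O n y))))

/-- Points are closed, and each basic neighbourhood of a point contains the closure of a basic
neighbourhood of the point. -/
def T3 (S : X → Set P) (B : I → X → Set P) : Set P :=
  fall fun x => fimp (meets (S x))
    (fand (fall fun z => fall fun _ : z ≠ x => Nbhd S B x fun y => fground (y ≠ z))
      (fall fun i => fimp (meets (B i x)) (fex fun j => fand (meets (B j x))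
        (fall fun y => fimp (fand (meets (S y)) (InCl S B (B j) y)) (meets (B i y))))))

/-- Every cover by basic sets has a countable subcover. -/
def Lindelof (S : X → Set P) (B : I → X → Set P) : Set P :=
  fall fun C : I → Set P =>
    fimp (fall fun x => fimp (meets (S x)) (fex fun i => fand (meets (C i)) (meets (B i x))))
      (fex fun u : ℕ → I => fand (fall fun n => meets (C (u n)))
        (fall fun x => fimp (meets (S x)) (fex fun n => meets (B (u n) x))))

/-- Some point is in the closure of a set `A` and of no discrete subset `D` of `A`. -/
def NotDG (S : X → Set P) (B : I → X → Set P) : Set P :=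
  fex fun A : X → Set P => fex fun x => fand (fall fun y => fimp (meets (A y)) (meets (S y)))
    (fand (meets (S x)) (fand (InCl S B A x)
      (fall fun D : X → Set P => fimp (fand (fall fun y => fimp (meets (D y)) (meets (A y)))
        (fall fun y => fimp (meets (D y))
          (Nbhd S B y fun w => fimp (meets (D w)) (fground (w = y)))))
        (fnot (InCl S B D x)))))

end Pool.Agent.H909Z.Tk
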