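import Mathlib

set_option autoImplicit false

open Set Cardinal

namespace Pool.Agent.H909Z.Tk

/-- The well ordered type of the successor of a cardinal. -/
abbrev Suc (μ : Cardinal.{0}) : Type := (Order.succ μ).ord.ToType

lemma mk_Iio_le (μ : Cardinal.{0}) (b : Suc μ) : #(Iio b) ≤ μ := by
  have := mk_Iio_lt b (by simp)
  rw [mk_ord_toType] at this
  exact Order.lt_succ_iff.1 this

lemma mk_Iic_le {μ : Cardinal.{0}} (hμ : ℵ₀ ≤ μ) (b : Suc μ) : #(Iic b) ≤ μ := by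
  rw [← Iio_insert]
  refine (mk_insert_le).trans ?_
  calc #(Iio b) + 1 ≤ μ + μ := add_le_add (mk_Iio_le μ b) (one_le_aleph0.trans hμ)
    _ = μ := add_eq_self hμ

lemma exists_bound {μ : Cardinal.{0}} (hμ : ℵ₀ ≤ μ) {T : Type} (hT : #T ≤ μ) (f : T → Suc μ) :
    ∃ b, ∀ t, f t < b := by
  by_contra hc
  simp only [not_exists, not_forall, not_lt] at hc
  have h1 : (⋃ t, Iic (f t)) = Set.univ := eq_univ_of_forall fun b => by
    obtain ⟨t, ht⟩ := hc b
    exact mem_iUnion.2 ⟨t, ht⟩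
  have h2 := mk_iUnion_le fun t => Iic (f t)
  rw [h1, mk_univ, mk_ord_toType] at h2
  have h3 : #T * ⨆ t, #(Iic (f t)) ≤ μ * μ :=
    mul_le_mul' hT (ciSup_le' fun t => mk_Iic_le hμ _)
  rw [mul_eq_self hμ] at h3
  exact absurd (h2.trans h3) (not_le.2 (Order.lt_succ μ))

lemma exists_bound_set {μ : Cardinal.{0}} (hμ : ℵ₀ ≤ μ) {s : Set (Suc μ)} (hs : s.Countable) :
    ∃ b, ∀ a ∈ s, a < b := by
  obtain ⟨b, hb⟩ := exists_bound hμ (T := s) ((le_aleph0_iff_set_countable.2 hs).trans hμ)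
    Subtype.val
  exact ⟨b, fun a ha => hb ⟨a, ha⟩⟩

/-- A closure point of uncountable cofinality. -/
lemma exists_closed (f : Suc 𝔠 → Suc 𝔠) : ∃ θ : Suc 𝔠, ∀ {ι : Type} [Countable ι] (a : ι → Suc 𝔠),
    (∀ i, a i < θ) → ∃ β, (∀ i, a i ≤ β) ∧ f β < θ := by
  have hb : ∀ (i : Suc ℵ₀) (g : Iio i → Suc 𝔠), ∃ b, ∀ t, g t < b := fun i g =>
    exists_bound aleph0_le_continuum ((mk_Iio_le _ i).trans aleph0_le_continuum) g
  choose bd hbd using hb
  let u : Suc ℵ₀ → Suc 𝔠 := WellFounded.fix wellFounded_lt fun i g =>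
    max (bd i fun j => g j.1 j.2) (f (bd i fun j => g j.1 j.2))
  have hu : ∀ i, u i = max (bd i fun j => u j.1) (f (bd i fun j => u j.1)) := fun i =>
    WellFounded.fix_eq _ _ _
  have h1 : ∃ b, ∀ i, u i < b := exists_bound aleph0_le_continuum (by
    rw [mk_ord_toType, succ_aleph0]
    exact aleph_one_le_continuum) u
  obtain ⟨θ, h2, h3⟩ := wellFounded_lt.has_min {b | ∀ i, u i < b} h1
  refine ⟨θ, fun a ha => ?_⟩
  have h4 : ∀ i, ∃ j, a i ≤ u j := fun i => by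
    have := h3 (a i)
    by_contra hc
    simp only [not_exists, not_le] at hc
    exact this hc (ha i)
  choose j hj using h4
  obtain ⟨k, hk⟩ := exists_bound le_rfl mk_le_aleph0 j
  refine ⟨bd k fun j => u j.1, fun i => (hj i).trans (hbd k (fun j => u j.1) ⟨j i, hk i⟩).le,
    lt_of_le_of_lt ?_ (h2 k)⟩
  rw [hu k]
  exact le_max_right _ _

/-- Pressing down for countable codes. -/
lemma press {ι Y : Type} [Countable ι] (hY : #Y ≤ 𝔠) (code : Suc 𝔠 → (ι → WithTop (Suc 𝔠)) × Y)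
    (hc : ∀ γ i, (code γ).1 i = ⊤ ∨ (code γ).1 i < γ) (b : Suc 𝔠 → Suc 𝔠) :
    ∃ γ θ, b γ < θ ∧ code γ = code θ := by
  classical
  have hg : ∀ t : (ι → WithTop (Suc 𝔠)) × Y, ∃ γ : Suc 𝔠, ∀ θ, code θ = t → code γ = t := by
    intro t
    by_cases h : ∃ θ, code θ = t
    · obtain ⟨θ, h⟩ := h
      exact ⟨θ, fun _ _ => h⟩
    · obtain ⟨θ, -⟩ := exists_bound aleph0_le_continuum (T := Empty) (by simp) Empty.elim
      exact ⟨θ, fun θ' h' => absurd ⟨θ', h'⟩ h⟩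
  choose g hg using hg
  have hf : ∀ β : Suc 𝔠, ∃ c, ∀ t : (ι → Option (Iic β)) × Y,
      b (g (fun i => (t.1 i).elim ⊤ fun x => (x.1 : WithTop (Suc 𝔠)), t.2)) < c := by
    intro β
    refine exists_bound aleph0_le_continuum ?_ _
    have h1 : #(Option (Iic β)) ≤ 𝔠 := by
      rw [mk_option]
      calc #(Iic β) + 1 ≤ 𝔠 + 𝔠 := add_le_add (mk_Iic_le aleph0_le_continuum β)
            (one_le_aleph0.trans aleph0_le_continuum)
        _ = 𝔠 := add_eq_self aleph0_le_continuum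
    have h2 : #(ι → Option (Iic β)) ≤ 𝔠 := by
      rw [← power_def]
      calc #(Option (Iic β)) ^ #ι ≤ 𝔠 ^ #ι := power_le_power_right h1
        _ ≤ 𝔠 ^ ℵ₀ := power_le_power_left continuum_ne_zero mk_le_aleph0
        _ = 𝔠 := continuum_power_aleph0
    rw [mk_prod, lift_id, lift_id]
    calc _ ≤ 𝔠 * 𝔠 := mul_le_mul' h2 hY
      _ = 𝔠 := mul_eq_self aleph0_le_continuum
  choose f hf using hf
  obtain ⟨θ, hθ⟩ := exists_closed f
  have h1 : ∀ i : {i // (code θ).1 i ≠ ⊤}, ∃ x : Suc 𝔠, x < θ ∧ (code θ).1 i = x := by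
    intro i
    obtain ⟨x, hx⟩ := WithTop.ne_top_iff_exists.1 i.2
    have h2 := (hc θ i).resolve_left i.2
    rw [← hx] at h2
    exact ⟨x, WithTop.coe_lt_coe.1 h2, hx.symm⟩
  choose x hx1 hx2 using h1
  obtain ⟨β, h2, h3⟩ := hθ x hx1
  have h4 := hf β (fun i => if h : (code θ).1 i = ⊤ then none else some ⟨x ⟨i, h⟩, h2 _⟩,
    (code θ).2)
  have h5 : (fun i => (if h : (code θ).1 i = ⊤ then none
      else some (⟨x ⟨i, h⟩, h2 _⟩ : Iic β)).elim ⊤ fun x => (x.1 : WithTop (Suc 𝔠))) =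
      (code θ).1 := by
    funext i
    by_cases h : (code θ).1 i = ⊤
    · rw [dif_pos h, h]
      rfl
    · rw [dif_neg h]
      exact (hx2 ⟨i, h⟩).symm
  simp only [h5] at h4
  exact ⟨g (code θ), θ, h4.trans h3, hg _ θ rfl⟩

end Pool.Agent.H909Z.Tk
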