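import Mathlib
import Pool.Agent.H909Z.TkDefs

set_option autoImplicit false

open Set

namespace Pool.Agent.H909Z.Tk

universe v

variable {P : Type} [Preorder P]

theorem mem_fex {ι : Sort v} {φ : ι → Set P} {p : P} :
    p ∈ fex φ ↔ ∀ q ≤ p, ∃ r ≤ q, ∃ i, r ∈ φ i := by
  simp only [fex, fnot, fall, Set.mem_ofPred_eq, not_forall, not_not]
  constructor
  · intro h q hq
    obtain ⟨i, r, hr, h'⟩ := h q hq
    exact ⟨r, hr, i, h'⟩
  · intro h q hq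
    obtain ⟨r, hr, i, h'⟩ := h q hq
    exact ⟨i, r, hr, h'⟩

theorem mem_fimp {φ ψ : Set P} {p : P} :
    p ∈ fimp φ ψ ↔ ∀ q ≤ p, q ∈ φ → ∃ r ≤ q, r ∈ ψ := by
  simp only [fimp, fnot, fand, Set.mem_ofPred_eq, not_and, not_forall, not_not]
  constructor
  · intro h q hq h'
    obtain ⟨r, hr, h''⟩ := h q hq h'
    exact ⟨r, hr, h''⟩
  · intro h q hq h'
    obtain ⟨r, hr, h''⟩ := h q hq h'
    exact ⟨r, hr, h''⟩

lemma meets_down {N : Set P} {p q : P} (h : p ∈ meets N) (hq : q ≤ p) : q ∈ meets N :=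
  fun r hr => h r (hr.trans hq)

lemma meets_self {N : Set P} {p : P} (h : p ∈ N) : p ∈ meets N :=
  fun r hr => ⟨r, le_rfl, p, h, hr⟩

lemma fimp_down {φ ψ : Set P} {p q : P} (h : p ∈ fimp φ ψ) (hq : q ≤ p) : q ∈ fimp φ ψ :=
  fun r hr => h r (hr.trans hq)

lemma fex_down {ι : Sort v} {φ : ι → Set P} {p q : P} (h : p ∈ fex φ) (hq : q ≤ p) :
    q ∈ fex φ := fun r hr => h r (hr.trans hq)

lemma of_meets_ground {h : Prop} {p : P} (hp : p ∈ meets {_q : P | h}) : h := by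
  obtain ⟨_, -, _, h1, -⟩ := hp p le_rfl
  exact h1

/-- Every decreasing sequence has a lower bound. -/
def Closed (P : Type) [Preorder P] : Prop :=
  ∀ p : ℕ → P, (∀ i, p (i + 1) ≤ p i) → ∃ q, ∀ i, q ≤ p i

lemma baire (hc : Closed P) {ι : Type} [Countable ι] (D : ι → Set P)
    (hd : ∀ i, ∀ q ∈ D i, ∀ r ≤ q, r ∈ D i) (p : P)
    (h : ∀ i, ∀ q ≤ p, ∃ r ≤ q, r ∈ D i) : ∃ q ≤ p, ∀ i, q ∈ D i := by
  rcases isEmpty_or_nonempty ι with hι | hι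
  · exact ⟨p, le_rfl, fun i => hι.elim i⟩
  obtain ⟨e, he⟩ := exists_surjective_nat ι
  choose g hg1 hg2 using h
  let u : ℕ → {q // q ≤ p} := fun n => Nat.rec ⟨p, le_rfl⟩
    (fun n q => ⟨g (e n) q.1 q.2, (hg1 _ _ _).trans q.2⟩) n
  obtain ⟨q, hq⟩ := hc (fun n => (u n).1) fun n => hg1 _ _ _
  refine ⟨q, hq 0, fun i => ?_⟩
  obtain ⟨n, rfl⟩ := he i
  exact hd _ _ (hg2 (e n) (u n).1 (u n).2) _ (hq (n + 1))

lemma noNew (hc : Closed P) (p : P) : p ∈ NoNew P := by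
  refine ⟨fun x => mem_fex.2 fun q _ => ?_, fun X R => mem_fimp.2 fun q _ hq => ?_⟩
  · obtain ⟨r, hr, h⟩ := baire hc (fun n => {r | r ∈ meets (x n) ∨ r ∈ fnot (meets (x n))})
      (fun n s hs t ht => hs.imp (fun h => meets_down h ht) fun h u hu => h u (hu.trans ht)) q
      (fun n s _ => by
        by_cases h : s ∈ fnot (meets (x n))
        · exact ⟨s, le_rfl, Or.inr h⟩
        · simp only [fnot, mem_ofPred_eq, not_forall, not_not] at h
          obtain ⟨t, ht, h⟩ := h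
          exact ⟨t, ht, Or.inl h⟩)
    refine ⟨r, hr, {n | r ∈ meets (x n)}, fun n => ⟨mem_fimp.2 fun s hs h1 => ⟨s, le_rfl, ?_⟩,
      mem_fimp.2 fun s hs h1 => ⟨s, le_rfl, meets_down h1 hs⟩⟩⟩
    exact (h n).resolve_right fun h2 => h2 s hs h1
  · obtain ⟨r, hr, h⟩ := baire hc (fun k => {r | ∃ y, r ∈ meets (R k y)})
      (fun k s ⟨y, hy⟩ t ht => ⟨y, meets_down hy ht⟩) q (fun k => mem_fex.1 (hq k))
    choose b hb using h
    exact ⟨r, hr, mem_fex.2 fun s hs => ⟨s, le_rfl, b, fun k => meets_down (hb k) hs⟩⟩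

/-- The identity is a Tukey map from a coarser order to a finer order. -/
lemma tukeyLE_id {X : Type} (D : X → Set P) {le le' : X → X → Prop}
    (h : ∀ x y, le' x y → le x y) (p : P) : p ∈ TukeyLE D le D le' := by
  refine mem_fex.2 fun q _ => ⟨q, le_rfl, fun x y => {_q | x = y},
    fun x => mem_fimp.2 fun r _ hr => ⟨r, le_rfl, mem_fex.2 fun s hs =>
      ⟨s, le_rfl, x, meets_down hr hs, meets_self rfl⟩⟩,
    fun x y y' => mem_fimp.2 fun r _ hr => ⟨r, le_rfl, ?_⟩,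
    fun A => mem_fimp.2 fun r _ _ => ⟨r, le_rfl, mem_fimp.2 fun s _ hs => ?_⟩⟩
  · exact (of_meets_ground hr.1).symm.trans (of_meets_ground hr.2)
  · obtain ⟨t, ht, c, h1, h2⟩ := mem_fex.1 hs s le_rfl
    refine ⟨t, ht, mem_fex.2 fun u hu => ⟨u, le_rfl, c, meets_down h1 hu, fun x =>
      mem_fimp.2 fun w hw h3 => ?_⟩⟩
    obtain ⟨z, hz, h4⟩ := mem_fimp.1 (h2 x x) w (hw.trans hu) ⟨h3, meets_self rfl⟩
    exact ⟨z, hz, h _ _ h4⟩

/-- What a Tukey map gives on ground model families. -/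
lemma of_tukeyLE {X Y : Type} {D : X → Set P} {le : X → X → Prop} {E : Y → Set P}
    {le' : Y → Y → Prop} {p : P} (h : p ∈ TukeyLE D le E le') :
    ∃ r ≤ p, ∃ Val : P → X → Y → Prop, (∀ s t, t ≤ s → ∀ x y, Val s x y → Val t x y) ∧
      (∀ s ≤ r, ∀ x, s ∈ meets (D x) → ∃ t ≤ s, ∃ y, Val t x y ∧ t ∈ meets (E y)) ∧
      ∀ s ≤ r, ∀ (K : Set ℕ) (x : ℕ → X) (y : ℕ → Y) (c : Y), s ∈ meets (E c) →
        (∀ k ∈ K, s ∈ meets (D (x k)) ∧ Val s (x k) (y k) ∧ le' (y k) c) →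
        ∃ t ≤ s, ∃ b, t ∈ meets (D b) ∧ ∀ k ∈ K, le (x k) b := by
  obtain ⟨r, hr, R, h1, h2, h3⟩ := mem_fex.1 h p le_rfl
  refine ⟨r, hr, fun s x y => s ∈ meets (R x y), fun s t ht x y h => meets_down h ht,
    fun s hs x hx => ?_, fun s hs K x y c hc hK => ?_⟩
  · obtain ⟨t, ht, h4⟩ := mem_fimp.1 (h1 x) s hs hx
    obtain ⟨u, hu, y, h5, h6⟩ := mem_fex.1 h4 t le_rfl
    exact ⟨u, hu.trans ht, y, h6, h5⟩
  · obtain ⟨t, ht, h4⟩ := mem_fimp.1 (h3 fun z => {_q | ∃ k ∈ K, z = x k}) s hs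
      (fun z => mem_fimp.2 fun u hu h => by
        obtain ⟨k, hk, rfl⟩ := of_meets_ground h
        exact ⟨u, le_rfl, meets_down (hK k hk).1 hu⟩)
    obtain ⟨u, hu, h5⟩ := mem_fimp.1 h4 t le_rfl (mem_fex.2 fun u hu =>
      ⟨u, le_rfl, c, meets_down hc (hu.trans ht), fun z w => mem_fimp.2 fun a ha h => by
        obtain ⟨k, hk, rfl⟩ := of_meets_ground h.1
        obtain ⟨a', ha', h6⟩ := mem_fimp.1 (h2 (x k) w (y k)) a
          ((ha.trans (hu.trans ht)).trans hs)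
          ⟨h.2, meets_down (hK k hk).2.1 (ha.trans (hu.trans ht))⟩
        refine ⟨a', ha', ?_⟩
        have h7 : w = y k := h6
        rw [h7]
        exact (hK k hk).2.2⟩)
    obtain ⟨w, hw, b, h6, h7⟩ := mem_fex.1 h5 u le_rfl
    refine ⟨w, hw.trans (hu.trans ht), b, h6, fun k hk => ?_⟩
    obtain ⟨_, -, h8⟩ := mem_fimp.1 (h7 (x k)) w le_rfl (meets_self ⟨k, hk, rfl⟩)
    exact h8

end Pool.Agent.H909Z.Tk
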