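import Mathlib
import Pool.Agent.H909Z.TkGen
import Pool.Agent.H909Z.PSDefs
import Pool.Agent.H909Z.Press

set_option autoImplicit false

open Set

namespace Pool.Agent.H909Z.Tk.PS

/-- Coordinates. -/
abbrev K : Type := Suc Cardinal.continuum

lemma bound {s : Set K} (hs : s.Countable) : ∃ b, ∀ a ∈ s, a < b :=
  exists_bound_set Cardinal.aleph0_le_continuum hs

/-- Conditions. -/
structure Cond where
  c : Set K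
  e : Set (WithTop K)
  v : WithTop K → K → Prop
  hc : c.Countable
  he : e.Countable
  top : ⊤ ∈ e
  vtop : ∀ δ ∈ c, v ⊤ δ
  zero : ∀ ρ ∈ e, ∀ δ ∈ c, v ρ δ → (δ : WithTop K) < ρ

instance : Preorder Cond where
  le q p := p.c ⊆ q.c ∧ p.e ⊆ q.e ∧ (∀ ρ ∈ p.e, ∀ δ ∈ p.c, (q.v ρ δ ↔ p.v ρ δ)) ∧
    ∀ ρ ∈ q.e, ∃ ρ' ∈ p.e, ∃ γ : WithTop K, ∀ δ ∈ p.c, (q.v ρ δ ↔ p.v ρ' δ ∧ (δ : WithTop K) < γ)
  le_refl _ := ⟨Subset.rfl, Subset.rfl, fun _ _ _ _ => Iff.rfl,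
    fun ρ h => ⟨ρ, h, ⊤, fun δ _ => (and_iff_left (WithTop.coe_lt_top δ)).symm⟩⟩
  le_trans r q p h h' := by
    refine ⟨h'.1.trans h.1, h'.2.1.trans h.2.1, fun ρ h1 δ h2 =>
      (h.2.2.1 ρ (h'.2.1 h1) δ (h'.1 h2)).trans (h'.2.2.1 ρ h1 δ h2), fun ρ h1 => ?_⟩
    obtain ⟨ρ', h2, γ, h3⟩ := h.2.2.2 ρ h1
    obtain ⟨ρ'', h4, γ', h5⟩ := h'.2.2.2 ρ' h2
    refine ⟨ρ'', h4, min γ' γ, fun δ h6 => ?_⟩
    rw [h3 δ (h'.1 h6), h5 δ h6, lt_min_iff, and_assoc]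

instance : Nonempty Cond :=
  ⟨⟨∅, {⊤}, fun _ _ => True, countable_empty, countable_singleton _, rfl, fun _ _ => trivial,
    fun _ _ _ h => h.elim⟩⟩

lemma union_bound (p : ℕ → Cond) (h : ∀ i, p (i + 1) ≤ p i) :
    ∃ q : Cond, (∀ i, q ≤ p i) ∧ q.c = ⋃ i, (p i).c ∧ q.e = ⋃ i, (p i).e := by
  have ha : Antitone p := antitone_nat_of_succ_le h
  have key : ∀ n, ∀ ρ ∈ (p n).e, ∀ δ ∈ (p n).c,
      ((∃ m, ρ ∈ (p m).e ∧ δ ∈ (p m).c ∧ (p m).v ρ δ) ↔ (p n).v ρ δ) := by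
    intro n ρ h1 δ h2
    refine ⟨fun ⟨m, h3, h4, h5⟩ => ?_, fun h3 => ⟨n, h1, h2, h3⟩⟩
    exact ((ha (le_max_left n m)).2.2.1 ρ h1 δ h2).1
      (((ha (le_max_right n m)).2.2.1 ρ h3 δ h4).2 h5)
  refine ⟨⟨⋃ i, (p i).c, ⋃ i, (p i).e, fun ρ δ => ∃ m, ρ ∈ (p m).e ∧ δ ∈ (p m).c ∧ (p m).v ρ δ,
    countable_iUnion fun i => (p i).hc, countable_iUnion fun i => (p i).he,
    mem_iUnion.2 ⟨0, (p 0).top⟩, fun δ h1 => ?_, fun ρ _ δ _ ⟨m, h3, h4, h5⟩ =>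
      (p m).zero ρ h3 δ h4 h5⟩, fun n => ⟨subset_iUnion (fun i => (p i).c) n,
      subset_iUnion (fun i => (p i).e) n, key n, fun ρ h1 => ?_⟩, rfl, rfl⟩
  · obtain ⟨m, hm⟩ := mem_iUnion.1 h1
    exact ⟨m, (p m).top, hm, (p m).vtop δ hm⟩
  · obtain ⟨m, hm⟩ := mem_iUnion.1 h1
    have h2 := ha (le_max_left n m)
    have h3 := (ha (le_max_right n m)).2.1 hm
    obtain ⟨ρ', h4, γ, h5⟩ := h2.2.2.2 ρ h3
    exact ⟨ρ', h4, γ, fun δ h6 => (key _ ρ h3 δ (h2.1 h6)).trans (h5 δ h6)⟩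

lemma closed : Closed Cond := fun p h =>
  let ⟨q, hq, _⟩ := union_bound p h
  ⟨q, hq⟩

lemma add_coords (p : Cond) {c : Set K} (hc : c.Countable) : ∃ q ≤ p, c ⊆ q.c := by
  refine ⟨⟨p.c ∪ c, p.e, fun ρ δ => (δ ∈ p.c ∧ p.v ρ δ) ∨ ρ = ⊤, p.hc.union hc, p.he, p.top,
    fun _ _ => Or.inr rfl, fun ρ h1 δ _ h2 => ?_⟩, ?_, subset_union_right⟩
  · rcases h2 with h2 | rfl
    · exact p.zero ρ h1 δ h2.1 h2.2
    · exact WithTop.coe_lt_top δ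
  · have key : ∀ ρ, ∀ δ ∈ p.c, (((δ ∈ p.c ∧ p.v ρ δ) ∨ ρ = ⊤) ↔ p.v ρ δ) := fun ρ δ h =>
      ⟨fun h1 => h1.elim (fun h2 => h2.2) fun h2 => h2 ▸ p.vtop δ h, fun h1 => Or.inl ⟨h, h1⟩⟩
    exact ⟨subset_union_left, Subset.rfl, fun ρ _ => key ρ, fun ρ h => ⟨ρ, h, ⊤, fun δ h1 =>
      (key ρ δ h1).trans (and_iff_left (WithTop.coe_lt_top δ)).symm⟩⟩

lemma add_name' (p : Cond) {ρ : WithTop K} (h : ρ ∉ p.e) (γ : WithTop K) (hγ : γ ≤ ρ) :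
    ∃ q ≤ p, ρ ∈ q.e ∧ q.c = p.c ∧ ∀ δ ∈ p.c, (δ : WithTop K) < γ → q.v ρ δ := by
  have key : ∀ ρ' ∈ p.e, ∀ δ : K,
      (((ρ' ∈ p.e ∧ p.v ρ' δ) ∨ (ρ' = ρ ∧ (δ : WithTop K) < γ)) ↔ p.v ρ' δ) := fun ρ' h1 δ =>
    ⟨fun h2 => h2.elim (fun h3 => h3.2) fun h3 => absurd (h3.1 ▸ h1) h, fun h2 => Or.inl ⟨h1, h2⟩⟩
  refine ⟨⟨p.c, insert ρ p.e, fun ρ' δ => (ρ' ∈ p.e ∧ p.v ρ' δ) ∨ (ρ' = ρ ∧ (δ : WithTop K) < γ),
    p.hc, p.he.insert ρ, Or.inr p.top, fun δ h1 => Or.inl ⟨p.top, p.vtop δ h1⟩,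
    fun ρ' _ δ h1 h2 => ?_⟩, ⟨Subset.rfl, subset_insert _ _, fun ρ' h1 δ _ => key ρ' h1 δ,
      fun ρ' h1 => ?_⟩, mem_insert _ _, rfl, fun δ _ h1 => Or.inr ⟨rfl, h1⟩⟩
  · rcases h2 with h2 | ⟨rfl, h2⟩
    · exact p.zero ρ' h2.1 δ h1 h2.2
    · exact h2.trans_le hγ
  · rcases h1 with rfl | h1
    · exact ⟨⊤, p.top, γ, fun δ h2 => ⟨fun h3 => h3.elim (fun h4 => absurd h4.1 h)
        fun h4 => ⟨p.vtop δ h2, h4.2⟩, fun h3 => Or.inr ⟨rfl, h3.2⟩⟩⟩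
    · exact ⟨ρ', h1, ⊤, fun δ _ =>
        (key ρ' h1 δ).trans (and_iff_left (WithTop.coe_lt_top δ)).symm⟩

lemma add_name (p : Cond) (ρ : WithTop K) : ∃ q ≤ p, ρ ∈ q.e := by
  by_cases h : ρ ∈ p.e
  · exact ⟨p, le_rfl, h⟩
  · obtain ⟨q, h1, h2, -⟩ := add_name' p h ρ le_rfl
    exact ⟨q, h1, h2⟩

/-- Points: a name and a truncation. -/
abbrev Pt : Type := WithTop K × WithTop K

/-- Basic sets: a countable set of coordinates and values. -/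
abbrev Ix : Type := {i : Set K × (K → Prop) // i.1.Countable}

/-- The value of a point. -/
def val (p : Cond) (z : Pt) (δ : K) : Prop := p.v z.1 δ ∧ (δ : WithTop K) < z.2

lemma val_down {p q : Cond} (h : q ≤ p) {z : Pt} (h1 : z.1 ∈ p.e) {δ : K} (h2 : δ ∈ p.c) :
    val q z δ ↔ val p z δ := and_congr_left' (h.2.2.1 _ h1 δ h2)

/-- The name of the basic sets. -/
def BB (i : Ix) (z : Pt) : Set Cond :=
  {p | z.1 ∈ p.e ∧ i.1.1 ⊆ p.c ∧ ∀ δ ∈ i.1.1, (val p z δ ↔ i.1.2 δ)}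

lemma BB_down {i : Ix} {z : Pt} {p q : Cond} (h : p ∈ BB i z) (hq : q ≤ p) : q ∈ BB i z :=
  ⟨hq.2.1 h.1, h.2.1.trans hq.1, fun δ h1 => (val_down hq h.1 (h.2.1 h1)).trans (h.2.2 δ h1)⟩

lemma of_meets_BB {i : Ix} {z : Pt} {p : Cond} (h : p ∈ meets (BB i z)) : ∃ q ≤ p, q ∈ BB i z := by
  obtain ⟨r, hr, s, hs, h1⟩ := h p le_rfl
  exact ⟨r, hr, BB_down hs h1⟩

/-- The condition separates two points. -/
def Diff (p : Cond) (z z' : Pt) : Prop :=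
  z.1 ∈ p.e ∧ z'.1 ∈ p.e ∧ ∃ δ ∈ p.c, ¬ (val p z δ ↔ val p z' δ)

lemma Diff.down {p q : Cond} {z z' : Pt} (h : Diff p z z') (hq : q ≤ p) : Diff q z z' := by
  obtain ⟨h1, h2, δ, h3, h4⟩ := h
  exact ⟨hq.2.1 h1, hq.2.1 h2, δ, hq.1 h3, by rwa [val_down hq h1 h3, val_down hq h2 h3]⟩

lemma Diff.symm {p : Cond} {z z' : Pt} (h : Diff p z z') : Diff p z' z :=
  let ⟨h1, h2, δ, h3, h4⟩ := h
  ⟨h2, h1, δ, h3, fun h5 => h4 h5.symm⟩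

/-- No extension separates two points. -/
def Same (p : Cond) (z z' : Pt) : Prop := ∀ q ≤ p, ¬ Diff q z z'

lemma Same.down {p q : Cond} {z z' : Pt} (h : Same p z z') (hq : q ≤ p) : Same q z z' :=
  fun r hr => h r (hr.trans hq)

lemma Same.val {p : Cond} {z z' : Pt} (h : Same p z z') (h1 : z.1 ∈ p.e) (h2 : z'.1 ∈ p.e)
    {δ : K} (h3 : δ ∈ p.c) : val p z δ ↔ val p z' δ := by
  by_contra hc
  exact h p le_rfl ⟨h1, h2, δ, h3, hc⟩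

lemma Same.BB {p : Cond} {z z' : Pt} {i : Ix} (h : Same p z z') (h1 : z.1 ∈ p.e)
    (h2 : p ∈ BB i z') : p ∈ BB i z :=
  ⟨h1, h2.2.1, fun δ h3 => (h.val h1 h2.1 (h2.2.1 h3)).trans (h2.2.2 δ h3)⟩

lemma Same.symm {p : Cond} {z z' : Pt} (h : Same p z z') : Same p z' z :=
  fun q hq h1 => h q hq h1.symm

/-- The name of the set of the points: least representatives. -/
def SS (z : Pt) : Set Cond := {p | ∀ z', WellOrderingRel z' z → ∀ q ≤ p, ∃ r ≤ q, Diff r z z'}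

lemma exists_rep (p : Cond) (z : Pt) : ∃ q ≤ p, ∃ z₀, q ∈ SS z₀ ∧ Same q z z₀ := by
  obtain ⟨z₀, ⟨q, hq, h1⟩, h2⟩ := (IsWellFounded.wf (r := (WellOrderingRel : Pt → Pt → Prop))).has_min
    {z' | ∃ q ≤ p, Same q z z'} ⟨z, p, le_rfl, fun _ _ ⟨_, _, _, _, h⟩ => h Iff.rfl⟩
  refine ⟨q, hq, z₀, fun z' h3 q' hq' => ?_, h1⟩
  have h4 : ¬ Same q' z z' := fun h4 => h2 z' ⟨q', hq'.trans hq, h4⟩ h3
  simp only [Same, not_forall, not_not] at h4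
  obtain ⟨r, hr, h4⟩ := h4
  obtain ⟨s, hs, h5⟩ := add_name r z₀.1
  obtain ⟨h6, h7, δ, h8, h9⟩ := h4.down hs
  refine ⟨s, hs.trans hr, h5, h7, δ, h8, ?_⟩
  rwa [← (h1.down ((hs.trans hr).trans hq')).val h6 h5 h8]

lemma diff_of_SS {p : Cond} {z z' : Pt} (h : p ∈ meets (SS z)) (h' : p ∈ meets (SS z'))
    (hne : z ≠ z') : ∃ q ≤ p, Diff q z z' := by
  rcases trichotomous_of (WellOrderingRel : Pt → Pt → Prop) z z' with h1 | h1 | h1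
  · obtain ⟨r, hr, s, hs, h2⟩ := h' p le_rfl
    obtain ⟨t, ht, h3⟩ := hs z h1 r h2
    exact ⟨t, ht.trans hr, h3.symm⟩
  · exact absurd h1 hne
  · obtain ⟨r, hr, s, hs, h2⟩ := h p le_rfl
    obtain ⟨t, ht, h3⟩ := hs z' h1 r h2
    exact ⟨t, ht.trans hr, h3⟩

lemma top_SS (p : Cond) : p ∈ SS (⊤, ⊤) := by
  intro z h q _
  have h1 : min z.1 z.2 ≠ ⊤ := by
    intro h1
    rw [min_eq_top] at h1
    have : z = (⊤, ⊤) := Prod.ext h1.1 h1.2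
    rw [this] at h
    exact irrefl_of WellOrderingRel _ h
  obtain ⟨δ, hδ⟩ := WithTop.ne_top_iff_exists.1 h1
  obtain ⟨r, hr, h2⟩ := add_name q z.1
  obtain ⟨s, hs, h3⟩ := add_coords r (countable_singleton δ)
  have h4 : δ ∈ s.c := h3 rfl
  refine ⟨s, hs.trans hr, s.top, hs.2.1 h2, δ, h4, fun h5 => ?_⟩
  obtain ⟨h6, h7⟩ := h5.1 ⟨s.vtop δ h4, WithTop.coe_lt_top δ⟩
  have h8 := lt_min (s.zero _ (hs.2.1 h2) δ h4 h6) h7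
  rw [← hδ] at h8
  exact lt_irrefl _ h8

lemma exists_BB (p : Cond) (z : Pt) {c : Set K} (hc : c.Countable) :
    ∃ q ≤ p, q ∈ BB ⟨(c, val q z), hc⟩ z := by
  obtain ⟨r, hr, h2⟩ := add_name p z.1
  obtain ⟨s, hs, h3⟩ := add_coords r hc
  exact ⟨s, hs.trans hr, hs.2.1 h2, h3, fun _ _ => Iff.rfl⟩

lemma nbhd_down {x : Pt} {φ : Pt → Set Cond} {p q : Cond} (h : p ∈ Nbhd SS BB x φ) (hq : q ≤ p) :
    q ∈ Nbhd SS BB x φ := fex_down h hq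

lemma of_nbhd {x : Pt} {φ : Pt → Set Cond} {p : Cond} (h : p ∈ Nbhd SS BB x φ) :
    ∃ q ≤ p, ∃ i, q ∈ BB i x ∧ ∀ y, ∀ r ≤ q, r ∈ meets (SS y) → r ∈ BB i y → ∃ s ≤ r, s ∈ φ y := by
  obtain ⟨q, hq, i, h1, h2⟩ := mem_fex.1 h p le_rfl
  obtain ⟨r, hr, h3⟩ := of_meets_BB h1
  exact ⟨r, hr.trans hq, i, h3, fun y s hs h4 h5 =>
    mem_fimp.1 (h2 y) s (hs.trans hr) ⟨h4, meets_self h5⟩⟩

lemma nbhd_of {x : Pt} {φ : Pt → Set Cond} {p : Cond} (h : ∀ q ≤ p, ∃ q' ≤ q, ∃ i, q' ∈ BB i x ∧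
    ∀ y, ∀ r ≤ q', r ∈ meets (SS y) → r ∈ BB i y → ∃ s ≤ r, s ∈ φ y) : p ∈ Nbhd SS BB x φ := by
  refine mem_fex.2 fun q hq => ?_
  obtain ⟨q', h1, i, h2, h3⟩ := h q hq
  refine ⟨q', h1, i, meets_self h2, fun y => mem_fimp.2 fun r hr h4 => ?_⟩
  obtain ⟨s, hs, h5⟩ := of_meets_BB h4.2
  obtain ⟨t, ht, h6⟩ := h3 y s (hs.trans hr) (meets_down h4.1 hs) h5
  exact ⟨t, ht.trans hs, h6⟩

lemma of_inCl {A : Pt → Set Cond} {x : Pt} {p : Cond} (h : p ∈ InCl SS BB A x) {i : Ix}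
    (hi : p ∈ BB i x) : ∃ q ≤ p, ∃ y, q ∈ meets (SS y) ∧ q ∈ BB i y ∧ q ∈ meets (A y) := by
  by_contra hc
  refine h p le_rfl (nbhd_of fun q hq => ⟨q, le_rfl, i, BB_down hi hq, fun y r hr h1 h2 =>
    ⟨r, le_rfl, fun s hs h3 => hc ⟨s, (hs.trans hr).trans hq, y, meets_down h1 hs,
      BB_down h2 hs, h3⟩⟩⟩)

lemma pSpace (p : Cond) : p ∈ PSpace SS BB := by
  refine ⟨fun x => mem_fimp.2 fun q _ _ => ?_, fun O => mem_fimp.2 fun q _ h => ⟨q, le_rfl,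
    fun x => mem_fimp.2 fun r hr h1 => ⟨r, le_rfl, nbhd_of fun s hs => ?_⟩⟩⟩
  · obtain ⟨r, hr, h⟩ := exists_BB q x countable_empty
    exact ⟨r, hr, mem_fex.2 fun s hs => ⟨s, le_rfl, _, meets_self (BB_down h hs)⟩⟩
  · obtain ⟨t, ht, h2⟩ := baire closed (fun n => {t | ∃ i, t ∈ BB i x ∧
        ∀ y, ∀ r ≤ t, r ∈ meets (SS y) → r ∈ BB i y → ∃ s ≤ r, s ∈ meets (O n y)})
      (fun n t ⟨i, h3, h4⟩ u hu => ⟨i, BB_down h3 hu, fun y r hr => h4 y r (hr.trans hu)⟩) s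
      (fun n t ht => by
        obtain ⟨u, hu, h3⟩ := mem_fimp.1 (h n x) t ((ht.trans hs).trans hr)
          ⟨meets_down h1.1 (ht.trans hs), meets_down (h1.2 n) (ht.trans hs)⟩
        obtain ⟨w, hw, h4⟩ := of_nbhd h3
        exact ⟨w, hw.trans hu, h4⟩)
    choose i hi1 hi2 using h2
    refine ⟨t, ht, ⟨(⋃ n, (i n).1.1, val t x), countable_iUnion fun n => (i n).2⟩,
      ⟨(hi1 0).1, iUnion_subset fun n => (hi1 n).2.1, fun _ _ => Iff.rfl⟩,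
      fun y u hu h3 h4 => ⟨u, le_rfl, fun n w hw => ?_⟩⟩
    have h5 : w ∈ BB (i n) y := BB_down ⟨h4.1, (subset_iUnion (fun n => (i n).1.1) n).trans h4.2.1,
      fun δ h5 => (h4.2.2 δ (mem_iUnion.2 ⟨n, h5⟩)).trans ((hi1 n).2.2 δ h5)⟩ hw
    obtain ⟨a, ha, h6⟩ := hi2 n y w (hw.trans hu) (meets_down h3 hw) h5
    obtain ⟨b, hb, h7⟩ := h6 a le_rfl
    exact ⟨b, hb.trans ha, h7⟩

lemma t3 (p : Cond) : p ∈ T3 SS BB := by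
  refine fun x => mem_fimp.2 fun q _ h => ⟨q, le_rfl, fun z hz => nbhd_of fun r hr => ?_,
    fun i => mem_fimp.2 fun r _ h1 => ⟨r, le_rfl, mem_fex.2 fun s hs => ⟨s, le_rfl, i,
      meets_down h1 hs, fun y => mem_fimp.2 fun t _ h2 => ?_⟩⟩⟩
  · by_cases h1 : Same r z x
    · obtain ⟨s, hs, h2⟩ := exists_BB r x countable_empty
      refine ⟨s, hs, _, h2, fun y t ht h3 _ => ⟨t, le_rfl, fun h4 => ?_⟩⟩
      subst h4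
      obtain ⟨u, hu, h5⟩ := diff_of_SS h3 (meets_down h ((ht.trans hs).trans hr)) hz
      exact h1 u ((hu.trans ht).trans hs) h5
    · simp only [Same, not_forall, not_not] at h1
      obtain ⟨s, hs, h1, h2, δ, h3, h4⟩ := h1
      refine ⟨s, hs, ⟨({δ}, val s x), countable_singleton δ⟩,
        ⟨h2, singleton_subset_iff.2 h3, fun _ _ => Iff.rfl⟩,
        fun y t ht _ h5 => ⟨t, le_rfl, fun h6 => ?_⟩⟩
      subst h6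
      exact h4 ((val_down ht h1 h3).symm.trans (h5.2.2 δ rfl))
  · obtain ⟨u, hu, h3⟩ := exists_BB t y i.2
    obtain ⟨w, hw, y', -, h4, h5⟩ := of_inCl (fun a ha => h2.2 a (ha.trans hu)) h3
    obtain ⟨a, ha, h6⟩ := of_meets_BB h5
    refine ⟨u, hu, meets_self ⟨h3.1, h3.2.1, fun δ h7 => ?_⟩⟩
    exact ((BB_down h4 ha).2.2 δ h7).symm.trans (h6.2.2 δ h7)

end Pool.Agent.H909Z.Tk.PS
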