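import Mathlib
import Pool.Agent.H909Z.PS1

set_option autoImplicit false

open Set

namespace Pool.Agent.H909Z.Tk.PS

lemma lindelof (p : Cond) : p ∈ Lindelof SS BB := by
  refine fun C => mem_fimp.2 fun q _ h => ⟨q, le_rfl, mem_fex.2 fun q₀ hq₀ => ?_⟩
  let T : Cond → Set Pt := fun r => r.e ×ˢ insert ⊤ ((fun δ : K => (δ : WithTop K)) '' r.c)
  have hT : ∀ r, (T r).Countable := fun r => r.he.prod ((r.hc.image _).insert ⊤)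
  have step : ∀ r ≤ q₀, ∃ s ≤ r, ∀ z ∈ T r, ∃ i, s ∈ meets (C i) ∧ s ∈ BB i z := by
    intro r hr
    have := (hT r).to_subtype
    obtain ⟨s, hs, h1⟩ := baire closed (fun z : T r => {s | ∃ i, s ∈ meets (C i) ∧ s ∈ BB i z.1})
      (fun z s ⟨i, h1, h2⟩ t ht => ⟨i, meets_down h1 ht, BB_down h2 ht⟩) r (by
        intro z s hs
        obtain ⟨t, ht, z₀, h1, h2⟩ := exists_rep s z.1
        obtain ⟨u, hu, h3⟩ := mem_fimp.1 (h z₀) t (ht.trans (hs.trans (hr.trans hq₀)))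
          (meets_self h1)
        obtain ⟨w, hw, i, h4, h5⟩ := mem_fex.1 h3 u le_rfl
        obtain ⟨a, ha, h6⟩ := of_meets_BB h5
        have h7 : a ≤ t := ha.trans (hw.trans hu)
        exact ⟨a, h7.trans ht, i, meets_down h4 ha,
          (h2.down h7).BB (((h7.trans ht).trans hs).2.1 z.2.1) h6⟩)
    exact ⟨s, hs, fun z hz => h1 ⟨z, hz⟩⟩
  choose g hg1 hg2 using step
  let u : ℕ → {r // r ≤ q₀} := fun n => Nat.rec ⟨q₀, le_rfl⟩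
    (fun _ r => ⟨g r.1 r.2, (hg1 _ _).trans r.2⟩) n
  have hu : ∀ n, (u (n + 1)).1 ≤ (u n).1 := fun n => hg1 _ _
  have ha : Antitone fun n => (u n).1 := antitone_nat_of_succ_le hu
  obtain ⟨s, hs, h1, h2⟩ := union_bound (fun n => (u n).1) hu
  have h3 : ∀ z : T s, ∃ i, s ∈ meets (C i) ∧ s ∈ BB i z.1 := by
    rintro ⟨z, h3, h4⟩
    rw [h2] at h3
    obtain ⟨n, hn⟩ := mem_iUnion.1 h3
    have h5 : ∃ m, z ∈ T (u m).1 := by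
      rcases h4 with h4 | ⟨δ, h4, h5⟩
      · exact ⟨n, hn, Or.inl h4⟩
      · rw [h1] at h4
        obtain ⟨m, hm⟩ := mem_iUnion.1 h4
        exact ⟨max n m, (ha (le_max_left n m)).2.1 hn,
          Or.inr ⟨δ, (ha (le_max_right n m)).1 hm, h5⟩⟩
    obtain ⟨m, hm⟩ := h5
    obtain ⟨i, h6, h7⟩ := hg2 (u m).1 (u m).2 z hm
    exact ⟨i, meets_down h6 (hs (m + 1)), BB_down h7 (hs (m + 1))⟩
  choose I hI1 hI2 using h3
  have := (hT s).to_subtype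
  have : Nonempty (T s) := ⟨⟨(⊤, ⊤), s.top, Or.inl rfl⟩⟩
  obtain ⟨e, he⟩ := exists_surjective_nat (T s)
  refine ⟨s, hs 0, fun n => I (e n), fun n => hI1 _, fun x => mem_fimp.2 fun r hr _ => ?_⟩
  obtain ⟨t, ht, h4⟩ := add_name r x.1
  have h5 := ht.trans hr
  obtain ⟨ρ, h6, γ, h7⟩ := h5.2.2.2 x.1 h4
  have h8 : ∃ γ' ∈ insert ⊤ ((fun δ : K => (δ : WithTop K)) '' s.c),
      ∀ δ ∈ s.c, ((δ : WithTop K) < γ' ↔ (δ : WithTop K) < min γ x.2) := by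
    obtain ⟨γ', ⟨h8, h9⟩, h10⟩ := wellFounded_lt.has_min
      {γ' ∈ insert ⊤ ((fun δ : K => (δ : WithTop K)) '' s.c) | min γ x.2 ≤ γ'}
      ⟨⊤, Or.inl rfl, le_top⟩
    refine ⟨γ', h8, fun δ h11 => ⟨fun h12 => ?_, fun h12 => h12.trans_le h9⟩⟩
    by_contra hc
    exact h10 δ ⟨Or.inr ⟨δ, h11, rfl⟩, not_lt.1 hc⟩ h12
  obtain ⟨γ', h8, h9⟩ := h8
  obtain ⟨n, hn⟩ := he ⟨(ρ, γ'), h6, h8⟩
  refine ⟨t, ht, mem_fex.2 fun w hw => ⟨w, le_rfl, n, meets_self (BB_down ?_ hw)⟩⟩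
  have h10 := hI2 (e n)
  refine ⟨h4, h10.2.1.trans h5.1, fun δ h11 => Iff.trans ?_ (h10.2.2 δ h11)⟩
  have h12 := h10.2.1 h11
  rw [hn]
  unfold val
  rw [h7 δ h12, h9 δ h12, lt_min_iff, and_assoc]

/-- The name of the set `A`. -/
def AA (z : Pt) : Set Cond := {p | p ∈ SS z ∧ ∃ ρ : K, Same p z (ρ, ⊤)}

lemma top_inCl (p : Cond) : p ∈ InCl SS BB AA (⊤, ⊤) := by
  intro q _ h
  obtain ⟨r, -, i, h1, h2⟩ := of_nbhd h
  have h3 : (r.c ∪ (fun δ : K => (δ : WithTop K)) ⁻¹' r.e).Countable :=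
    r.hc.union (r.he.preimage WithTop.coe_injective)
  obtain ⟨ρ, hρ⟩ := bound h3
  obtain ⟨s, hs, h4, h5, h6⟩ := add_name' r (ρ := (ρ : WithTop K))
    (fun h4 => lt_irrefl _ (hρ ρ (Or.inr h4))) ρ le_rfl
  have h7 : s ∈ BB i (ρ, ⊤) := ⟨h4, h1.2.1.trans hs.1, fun δ h7 => by
    have h8 := h1.2.1 h7
    refine Iff.trans ⟨fun _ => ⟨r.vtop δ h8, WithTop.coe_lt_top δ⟩, fun _ =>
      ⟨h6 δ h8 (WithTop.coe_lt_coe.2 (hρ δ (Or.inl h8))), WithTop.coe_lt_top δ⟩⟩ (h1.2.2 δ h7)⟩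
  obtain ⟨t, ht, z₀, h8, h9⟩ := exists_rep s (ρ, ⊤)
  obtain ⟨u, hu, h10⟩ := add_name t z₀.1
  obtain ⟨w, hw, h11⟩ := h2 z₀ u ((hu.trans ht).trans hs) (meets_down (meets_self h8) hu)
    ((h9.symm.down hu).BB h10 (BB_down h7 (hu.trans ht)))
  exact h11 w le_rfl (meets_down (meets_self ⟨h8, ρ, h9.symm⟩) (hw.trans hu))

lemma amalg (p p' : Cond) (γ θ : K) (C C' : ℕ → K) (N N' : ℕ → WithTop K)
    (hC : p.c = range C) (hC' : p'.c = range C') (hN : p.e = range N) (hN' : p'.e = range N')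
    (h1 : ∀ δ ∈ p.c, δ < θ) (h2 : ∀ ρ ∈ p.e, ρ ≠ ⊤ → ρ < θ) (h3 : (θ : WithTop K) < N' 0)
    (h3' : N' 0 ≠ ⊤)
    (h4 : ∀ k, C k < γ ∨ C' k < θ → C k = C' k ∧ C k < γ ∧ C' k < θ)
    (h5 : ∀ n, N' n < θ → N n = N' n)
    (h6 : ∀ n k, C k < γ → (p.v (N n) (C k) ↔ p'.v (N' n) (C' k))) :
    ∃ r, r ≤ p ∧ r ≤ p' ∧ ∀ δ ∈ p.c, (r.v (N' 0) δ ↔ p.v (N 0) δ) := by
  have a1 : ∀ δ ∈ p'.c, δ < θ → δ ∈ p.c ∧ δ < γ ∧ ∀ n, (p.v (N n) δ ↔ p'.v (N' n) δ) := by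
    intro δ h7 h8
    rw [hC'] at h7
    obtain ⟨k, rfl⟩ := h7
    obtain ⟨h9, h10, -⟩ := h4 k (Or.inr h8)
    refine ⟨hC ▸ ⟨k, h9⟩, h9 ▸ h10, fun n => ?_⟩
    have := h6 n k h10
    rwa [h9] at this
  have a2 : ∀ δ ∈ p.c, δ < γ → δ ∈ p'.c := by
    intro δ h7 h8
    rw [hC] at h7
    obtain ⟨k, rfl⟩ := h7
    exact hC' ▸ ⟨k, (h4 k (Or.inl h8)).1.symm⟩
  have a3 : ∀ ρ ∈ p.e, ρ ∈ p'.e → ∀ δ ∈ p.c, δ ∈ p'.c → (p.v ρ δ ↔ p'.v ρ δ) := by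
    intro ρ h7 h8 δ h9 h10
    by_cases h : ρ = ⊤
    · subst h
      exact iff_of_true (p.vtop δ h9) (p'.vtop δ h10)
    · have h11 := h2 ρ h7 h
      rw [hN'] at h8
      obtain ⟨n, rfl⟩ := h8
      have := (a1 δ h10 (h1 δ h9)).2.2 n
      rwa [h5 n h11] at this
  have a4 : N' 0 ∉ p.e := fun h => lt_asymm h3 (h2 _ h h3')
  have a5 : N' 0 ∈ p'.e := hN' ▸ mem_range_self 0
  let v : WithTop K → K → Prop := fun ρ δ => (ρ ∈ p'.e ∧ δ ∈ p'.c ∧ p'.v ρ δ) ∨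
    (ρ ∈ p.e ∧ δ ∈ p.c ∧ p.v ρ δ) ∨ (ρ = N' 0 ∧ δ ∈ p.c ∧ p.v (N 0) δ)
  have b1 : ∀ ρ ∈ p.e, ∀ δ ∈ p.c, (v ρ δ ↔ p.v ρ δ) := fun ρ h7 δ h8 =>
    ⟨fun h => h.elim (fun h => (a3 ρ h7 h.1 δ h8 h.2.1).2 h.2.2) fun h => h.elim (fun h => h.2.2)
      fun h => absurd (h.1 ▸ h7) a4, fun h => Or.inr (Or.inl ⟨h7, h8, h⟩)⟩
  have b2 : ∀ ρ ∈ p'.e, ∀ δ ∈ p'.c, (v ρ δ ↔ p'.v ρ δ) := fun ρ h7 δ h8 =>
    ⟨fun h => h.elim (fun h => h.2.2) fun h => h.elim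
      (fun h => (a3 ρ h.1 h7 δ h.2.1 h8).1 h.2.2)
      fun h => h.1 ▸ ((a1 δ h8 (h1 δ h.2.1)).2.2 0).1 h.2.2, fun h => Or.inl ⟨h7, h8, h⟩⟩
  have b3 : ∀ δ ∈ p.c, (v (N' 0) δ ↔ p.v (N 0) δ) := fun δ h8 =>
    ⟨fun h => h.elim (fun h => ((a1 δ h.2.1 (h1 δ h8)).2.2 0).2 h.2.2) fun h => h.elim
      (fun h => absurd h.1 a4) fun h => h.2.2, fun h => Or.inr (Or.inr ⟨rfl, h8, h⟩)⟩
  refine ⟨⟨p.c ∪ p'.c, p.e ∪ p'.e, v, p.hc.union p'.hc, p.he.union p'.he, Or.inl p.top,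
    fun δ h => h.elim (fun h => Or.inr (Or.inl ⟨p.top, h, p.vtop δ h⟩))
      fun h => Or.inl ⟨p'.top, h, p'.vtop δ h⟩, fun ρ _ δ _ h => ?_⟩,
    ⟨subset_union_left, subset_union_left, b1, fun ρ h => ?_⟩,
    ⟨subset_union_right, subset_union_right, b2, fun ρ h => ?_⟩, b3⟩
  · rcases h with h | h | h
    · exact p'.zero ρ h.1 δ h.2.1 h.2.2
    · exact p.zero ρ h.1 δ h.2.1 h.2.2
    · rw [h.1]
      exact (WithTop.coe_lt_coe.2 (h1 δ h.2.1)).trans h3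
  · by_cases h7 : ρ ∈ p.e
    · exact ⟨ρ, h7, ⊤, fun δ h8 =>
        (b1 ρ h7 δ h8).trans (and_iff_left (WithTop.coe_lt_top δ)).symm⟩
    by_cases h8 : ρ = N' 0
    · exact ⟨N 0, hN ▸ mem_range_self 0, ⊤, fun δ h9 =>
        h8 ▸ (b3 δ h9).trans (and_iff_left (WithTop.coe_lt_top δ)).symm⟩
    have h9 : ρ ∈ p'.e := h.resolve_left h7
    obtain ⟨n, rfl⟩ : ρ ∈ range N' := hN' ▸ h9
    refine ⟨N n, hN ▸ mem_range_self n, γ, fun δ h10 => ⟨fun h11 => ?_, fun h11 => ?_⟩⟩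
    · rcases h11 with h11 | h11 | h11
      · have := a1 δ h11.2.1 (h1 δ h10)
        exact ⟨(this.2.2 n).2 h11.2.2, WithTop.coe_lt_coe.2 this.2.1⟩
      · exact absurd h11.1 h7
      · exact absurd h11.1 h8
    · have h12 := a2 δ h10 (WithTop.coe_lt_coe.1 h11.2)
      exact Or.inl ⟨h9, h12, ((a1 δ h12 (h1 δ h10)).2.2 n).1 h11.1⟩
  · by_cases h7 : ρ ∈ p'.e
    · exact ⟨ρ, h7, ⊤, fun δ h8 =>
        (b2 ρ h7 δ h8).trans (and_iff_left (WithTop.coe_lt_top δ)).symm⟩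
    have h9 : ρ ∈ p.e := h.resolve_right h7
    obtain ⟨n, rfl⟩ : ρ ∈ range N := hN ▸ h9
    refine ⟨N' n, hN' ▸ mem_range_self n, θ, fun δ h10 => ⟨fun h11 => ?_, fun h11 => ?_⟩⟩
    · rcases h11 with h11 | h11 | h11
      · exact absurd h11.1 h7
      · exact ⟨((a1 δ h10 (h1 δ h11.2.1)).2.2 n).1 h11.2.2, WithTop.coe_lt_coe.2 (h1 δ h11.2.1)⟩
      · exact absurd (h11.1 ▸ a5) h7
    · have := a1 δ h10 (WithTop.coe_lt_coe.1 h11.2)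
      exact Or.inr (Or.inl ⟨h9, this.1, (this.2.2 n).2 h11.1⟩)

lemma exists_enum {α : Type} {s : Set α} (hs : s.Countable) {a : α} (ha : a ∈ s) :
    ∃ f : ℕ → α, s = range f ∧ f 0 = a := by
  obtain ⟨f, hf⟩ := hs.exists_eq_range ⟨a, ha⟩
  refine ⟨fun n => Nat.casesOn n a f, ?_, rfl⟩
  ext x
  constructor
  · intro hx
    rw [hf] at hx
    obtain ⟨n, rfl⟩ := hx
    exact ⟨n + 1, rfl⟩
  · rintro ⟨_ | n, rfl⟩
    · exact ha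
    · rw [hf]
      exact ⟨n, rfl⟩

lemma pair (p : K → Cond) (ρ : K → K) (h1 : ∀ γ, γ ∈ (p γ).c) (h2 : ∀ γ, (ρ γ : WithTop K) ∈ (p γ).e)
    (h3 : ∀ γ, γ < ρ γ) : ∃ γ θ, ρ γ < θ ∧ ∃ r, r ≤ p γ ∧ r ≤ p θ ∧
      ∀ δ ∈ (p γ).c, (r.v (ρ θ) δ ↔ (p γ).v (ρ γ) δ) := by
  classical
  choose C hC _ using fun γ => exists_enum (p γ).hc (h1 γ)
  choose N hN hN0 using fun γ => exists_enum (p γ).he (h2 γ)
  choose b hb using fun γ => bound (s := (p γ).c ∪ (fun δ : K => (δ : WithTop K)) ⁻¹' (p γ).e)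
    ((p γ).hc.union ((p γ).he.preimage WithTop.coe_injective))
  let cut : K → WithTop K → WithTop K := fun γ a => if a < γ then a else ⊤
  have hcut : ∀ (γ θ : K) (a a' : WithTop K), cut γ a = cut θ a' → a < γ ∨ a' < θ →
      a = a' ∧ a < γ ∧ a' < θ := by
    intro γ θ a a' h h'
    by_cases h4 : a < γ <;> by_cases h5 : a' < θ
    · simp only [cut, h4, h5, if_true] at h
      exact ⟨h, h4, h5⟩
    · simp only [cut, h4, h5, if_true, if_false] at h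
      exact absurd (h ▸ h4) not_top_lt
    · simp only [cut, h4, h5, if_true, if_false] at h
      exact absurd (h ▸ h5) not_top_lt
    · exact absurd h' (not_or.2 ⟨h4, h5⟩)
  obtain ⟨γ, θ, h4, h5⟩ := press (ι := ℕ ⊕ ℕ) (Y := Set (ℕ × ℕ)) (by simp)
    (fun γ => (Sum.elim (fun k => cut γ (C γ k)) fun n => cut γ (N γ n),
      {t | C γ t.2 < γ ∧ (p γ).v (N γ t.1) (C γ t.2)})) (by
      have : ∀ (γ : K) a, cut γ a = ⊤ ∨ cut γ a < γ := fun γ a => by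
        by_cases h : a < γ
        · exact Or.inr (by simpa only [cut, h, if_true] using h)
        · exact Or.inl (by simp only [cut, h, if_false])
      rintro γ (k | n)
      · exact this _ _
      · exact this _ _) b
  have h6 : ∀ k, C γ k < γ ∨ C θ k < θ → C γ k = C θ k ∧ C γ k < γ ∧ C θ k < θ := by
    intro k h
    have := hcut γ θ _ _ (congrFun (congrArg Prod.fst h5) (Sum.inl k))
      (h.imp WithTop.coe_lt_coe.2 WithTop.coe_lt_coe.2)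
    exact ⟨WithTop.coe_injective this.1, WithTop.coe_lt_coe.1 this.2.1,
      WithTop.coe_lt_coe.1 this.2.2⟩
  obtain ⟨r, h7, h8, h9⟩ := amalg (p γ) (p θ) γ θ (C γ) (C θ) (N γ) (N θ) (hC γ) (hC θ) (hN γ)
    (hN θ) (fun δ h => (hb γ δ (Or.inl h)).trans h4) (fun a h h' => by
      obtain ⟨x, rfl⟩ := WithTop.ne_top_iff_exists.1 h'
      exact WithTop.coe_lt_coe.2 ((hb γ x (Or.inr h)).trans h4))
    (by rw [hN0]; exact WithTop.coe_lt_coe.2 (h3 θ)) (by rw [hN0]; exact WithTop.coe_ne_top) h6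
    (fun n h => (hcut γ θ _ _ (congrFun (congrArg Prod.fst h5) (Sum.inr n)) (Or.inr h)).1)
    (fun n k h => by
      have h10 := Set.ext_iff.1 (congrArg Prod.snd h5) (n, k)
      exact ⟨fun h11 => (h10.1 ⟨h, h11⟩).2, fun h11 => (h10.2 ⟨(h6 k (Or.inl h)).2.2, h11⟩).2⟩)
  rw [hN0, hN0] at h9
  exact ⟨γ, θ, (hb γ _ (Or.inr (h2 γ))).trans h4, r, h7, h8, h9⟩

lemma notDG (p : Cond) : p ∈ NotDG SS BB := by
  refine mem_fex.2 fun q₁ _ => ⟨q₁, le_rfl, AA, mem_fex.2 fun q₂ _ => ⟨q₂, le_rfl, (⊤, ⊤),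
    fun y => mem_fimp.2 fun r _ h => ?_, meets_self (top_SS _), top_inCl _,
    fun D => mem_fimp.2 fun q₃ _ h => ⟨q₃, le_rfl, fun q hq h' => ?_⟩⟩⟩
  · obtain ⟨s, hs, t, ht, h1⟩ := h r le_rfl
    exact ⟨s, hs, meets_down (meets_self ht.1) h1⟩
  have key : ∀ γ : K, ∃ (r : Cond) (ρ : K) (w : Pt) (i : Ix), γ ∈ r.c ∧ (ρ : WithTop K) ∈ r.e ∧
      r.v ρ γ ∧ r ∈ meets (SS w) ∧ r ∈ meets (D w) ∧ Same r w (ρ, ⊤) ∧ r ∈ BB i w ∧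
      ∀ y, ∀ s ≤ r, s ∈ meets (SS y) → s ∈ BB i y → s ∈ meets (D y) → y = w := by
    intro γ
    obtain ⟨a, ha, h1⟩ := add_coords q (countable_singleton γ)
    have h2 : a ∈ BB ⟨({γ}, fun _ => True), countable_singleton γ⟩ (⊤, ⊤) :=
      ⟨a.top, h1, fun δ h => iff_of_true ⟨a.vtop δ (h1 h), WithTop.coe_lt_top δ⟩ trivial⟩
    obtain ⟨b, hb, w, h3, h4, h5⟩ := of_inCl (fun x hx => h' x (hx.trans ha)) h2
    have hb' : b ≤ q₃ := (hb.trans ha).trans hq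
    obtain ⟨c, hc, h6⟩ := mem_fimp.1 (h.1 w) b hb' h5
    obtain ⟨d, hd, t, ⟨-, ρ, h7⟩, h8⟩ := h6 c le_rfl
    have hd' : d ≤ b := hd.trans hc
    obtain ⟨f, hf, h9⟩ := mem_fimp.1 (h.2 w) d (hd'.trans hb') (meets_down h5 hd')
    obtain ⟨g, hg, i, h10, h11⟩ := of_nbhd h9
    obtain ⟨r, hr, h12⟩ := add_name g ρ
    have hr' : r ≤ d := hr.trans (hg.trans hf)
    have h13 := (h7.down h8).down hr'
    have h14 := BB_down h4 (hr'.trans hd')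
    refine ⟨r, ρ, w, i, h14.2.1 rfl, h12,
      ((h13.val h14.1 h12 (h14.2.1 rfl)).1 ((h14.2.2 γ rfl).2 trivial)).1,
      meets_down h3 (hr'.trans hd'), meets_down h5 (hr'.trans hd'), h13, BB_down h10 hr,
      fun y s hs h15 h16 h17 => ?_⟩
    obtain ⟨s', hs', h18⟩ := h11 y s (hs.trans hr) h15 h16
    obtain ⟨_, -, h19⟩ := mem_fimp.1 h18 s' le_rfl (meets_down h17 hs')
    exact h19
  choose r ρ w i h1 h2 h3 h4 h5 h6 h7 h8 using key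
  have h9 : ∀ γ, γ < ρ γ := fun γ => WithTop.coe_lt_coe.1 ((r γ).zero _ (h2 γ) γ (h1 γ) (h3 γ))
  obtain ⟨γ, θ, h10, s, hs, hs', h11⟩ := pair r ρ h1 h2 h9
  have h12 : s ∈ BB (i γ) (ρ γ, ⊤) :=
    ((h6 γ).down hs).symm.BB (hs.2.1 (h2 γ)) (BB_down (h7 γ) hs)
  have h13 : s ∈ BB (i γ) (ρ θ, ⊤) := ⟨hs'.2.1 (h2 θ), h12.2.1, fun δ h =>
    Iff.trans (and_congr_left' ((h11 δ ((h7 γ).2.1 h)).trans
      (hs.2.2.1 _ (h2 γ) δ ((h7 γ).2.1 h)).symm)) (h12.2.2 δ h)⟩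
  have h14 : (w θ).1 ∈ s.e := hs'.2.1 (h7 θ).1
  have h15 := h8 γ (w θ) s hs (meets_down (h4 θ) hs') (((h6 θ).down hs').BB h14 h13)
    (meets_down (h5 θ) hs')
  have h16 : θ ∈ s.c := hs'.1 (h1 θ)
  have h17 : val s (w θ) θ := (((h6 θ).down hs').val h14 h13.1 h16).2
    ⟨(hs'.2.2.1 _ (h2 θ) θ (h1 θ)).2 (h3 θ), WithTop.coe_lt_top θ⟩
  rw [h15] at h17 h14
  have h18 := (((h6 γ).down hs).val h14 h12.1 h16).1 h17
  exact lt_asymm h10 (WithTop.coe_lt_coe.1 (s.zero _ h12.1 θ h16 h18.1))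

theorem main : ∃ (P : Type) (_ : Preorder P) (X I : Type) (S : X → Set P) (B : I → X → Set P),
    Nonempty P ∧ ∀ p : P, p ∈ NoNew P ∧ p ∈ PSpace S B ∧ p ∈ T3 S B ∧ p ∈ Lindelof S B ∧
      p ∈ NotDG S B :=
  ⟨Cond, inferInstance, Pt, Ix, SS, BB, inferInstance, fun p =>
    ⟨noNew closed p, pSpace p, t3 p, lindelof p, notDG p⟩⟩

end Pool.Agent.H909Z.Tk.PS
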