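import Mathlib

set_option autoImplicit false

open Set

namespace Pool.Agent.H909Z.Tk

/-- Almost inclusion. -/
def AS {α : Type} (X Y : Set α) : Prop := (X \ Y).Finite

namespace AS

variable {α : Type} {X Y Z : Set α}

lemma of_subset (h : X ⊆ Y) : AS X Y := by
  unfold AS
  rw [sdiff_eq_empty.2 h]
  exact finite_empty

lemma refl (X : Set α) : AS X X := of_subset Subset.rfl

lemma trans (h : AS X Y) (h' : AS Y Z) : AS X Z := by
  refine (h.union h').subset fun x hx => ?_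
  by_cases hy : x ∈ Y
  · exact Or.inr ⟨hy, hx.2⟩
  · exact Or.inl ⟨hx.1, hy⟩

lemma inter (h : AS X Y) (h' : AS X Z) : AS X (Y ∩ Z) := by
  refine (h.union h').subset fun x hx => ?_
  by_cases hy : x ∈ Y
  · exact Or.inr ⟨hx.1, fun hz => hx.2 ⟨hy, hz⟩⟩
  · exact Or.inl ⟨hx.1, hy⟩

lemma mono (h : AS X Y) (h' : Y ⊆ Z) : AS X Z := h.trans (of_subset h')

lemma biInter {ι : Type} {I : Set ι} (hI : I.Finite) {S : ι → Set α} (h : ∀ i ∈ I, AS X (S i)) :
    AS X (⋂ i ∈ I, S i) := by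
  refine (hI.biUnion h).subset fun x hx => ?_
  simp only [mem_sdiff, mem_iInter, not_forall] at hx
  obtain ⟨h1, i, hi, h2⟩ := hx
  exact mem_biUnion hi ⟨h1, h2⟩

lemma infinite_inter (h : AS X Y) (hX : X.Infinite) : (X ∩ Y).Infinite := by
  intro h1
  refine hX ((h1.union h).subset fun x hx => ?_)
  by_cases hy : x ∈ Y
  · exact Or.inl ⟨hx, hy⟩
  · exact Or.inr ⟨hx, hy⟩

lemma infinite (h : AS X Y) (hX : X.Infinite) : Y.Infinite :=
  (h.infinite_inter hX).mono inter_subset_right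

end AS

lemma exists_pseudo (A : ℕ → Set ℕ) (hA : ∀ i, (A i).Infinite) (h : ∀ i, AS (A (i + 1)) (A i)) :
    ∃ B : Set ℕ, B.Infinite ∧ ∀ i, AS B (A i) := by
  have h1 : ∀ i j, i ≤ j → AS (A j) (A i) := by
    intro i j hij
    induction j, hij using Nat.le_induction with
    | base => exact AS.refl _
    | succ k _ ih => exact (h k).trans ih
  have h2 : ∀ n, ∃ m, n < m ∧ ∀ i ≤ n, m ∈ A i := by
    intro n
    have h3 : AS (A n) (⋂ i ∈ Iic n, A i) := AS.biInter (finite_Iic n) fun i hi => h1 i n hi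
    obtain ⟨m, hm, h4⟩ := (h3.infinite (hA n)).exists_gt n
    exact ⟨m, h4, fun i hi => mem_iInter₂.1 hm i hi⟩
  choose f hf1 hf2 using h2
  refine ⟨range f, infinite_of_forall_exists_gt fun n => ⟨f n, mem_range_self n, hf1 n⟩,
    fun i => ((finite_Iio i).image f).subset ?_⟩
  rintro _ ⟨⟨n, rfl⟩, hn⟩
  refine ⟨n, ?_, rfl⟩
  by_contra hc
  exact hn (hf2 n i (not_lt.1 hc))

lemma exists_split {B : Set ℕ} (hB : B.Infinite) :
    ∃ B0 B1 : Set ℕ, B0.Infinite ∧ B1.Infinite ∧ B0 ⊆ B ∧ B1 ⊆ B ∧ ∀ k ∈ B1, k ∉ B0 := by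
  let e := hB.natEmbedding
  have he : Function.Injective fun n => (e n : ℕ) := Subtype.val_injective.comp e.injective
  refine ⟨range fun n => (e (2 * n) : ℕ), range fun n => (e (2 * n + 1) : ℕ),
    infinite_range_of_injective fun a b h => by have := he h; omega,
    infinite_range_of_injective fun a b h => by have := he h; omega, ?_, ?_, ?_⟩
  · rintro _ ⟨n, rfl⟩
    exact (e _).2
  · rintro _ ⟨n, rfl⟩
    exact (e _).2
  · rintro _ ⟨n, rfl⟩ ⟨m, hm⟩
    have := he hm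
    omega

lemma exists_thin {A : Set ℕ} (hA : A.Infinite) (X : ℕ → Set ℕ) (hX : ∀ n, AS A (X n)) :
    ∃ A' ⊆ A, A'.Infinite ∧ ∀ a ∈ A', ∀ a' ∈ A', a < a' → a' ∈ X a := by
  have h2 : ∀ n, ∃ m, n < m ∧ m ∈ A ∧ ∀ i ≤ n, m ∈ X i := by
    intro n
    have h3 : AS A (⋂ i ∈ Iic n, X i) := AS.biInter (finite_Iic n) fun i _ => hX i
    obtain ⟨m, hm, h4⟩ := (h3.infinite_inter hA).exists_gt n
    exact ⟨m, h4, hm.1, fun i hi => mem_iInter₂.1 hm.2 i hi⟩
  choose f hf1 hf2 hf3 using h2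
  let a : ℕ → ℕ := fun n => f^[n + 1] 0
  have ha : ∀ n, a (n + 1) = f (a n) := fun n => Function.iterate_succ_apply' f (n + 1) 0
  have hm : StrictMono a := strictMono_nat_of_lt_succ fun n => by rw [ha]; exact hf1 _
  refine ⟨range a, ?_, infinite_range_of_injective hm.injective, ?_⟩
  · rintro _ ⟨n, rfl⟩
    rcases n with _ | n
    · exact hf2 0
    · rw [ha]
      exact hf2 _
  · rintro _ ⟨n, rfl⟩ _ ⟨m, rfl⟩ h
    have h1 := hm.lt_iff_lt.1 h
    obtain ⟨m, rfl⟩ : ∃ k, m = k + 1 := ⟨m - 1, by omega⟩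
    rw [ha]
    exact hf3 _ _ (hm.monotone (by omega))

end Pool.Agent.H909Z.Tk
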