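import Mathlib
import Pool.Agent.H909Z.TkGen
import Pool.Agent.H909Z.TkAS

set_option autoImplicit false

open Set

namespace Pool.Agent.H909Z.Tk.One

/-- Conditions: pairs of infinite sets. -/
structure Cond where
  A : Set ℕ
  B : Set ℕ
  hA : A.Infinite
  hB : B.Infinite

instance : Preorder Cond where
  le p q := AS p.A q.A ∧ AS p.B q.B
  le_refl _ := ⟨AS.refl _, AS.refl _⟩
  le_trans _ _ _ h h' := ⟨h.1.trans h'.1, h.2.trans h'.2⟩

instance : Nonempty Cond := ⟨⟨univ, univ, infinite_univ, infinite_univ⟩⟩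

lemma closed : Closed Cond := by
  intro p h
  obtain ⟨A, hA, h1⟩ := exists_pseudo (fun i => (p i).A) (fun i => (p i).hA) fun i => (h i).1
  obtain ⟨B, hB, h2⟩ := exists_pseudo (fun i => (p i).B) (fun i => (p i).hB) fun i => (h i).2
  exact ⟨⟨A, B, hA, hB⟩, fun i => ⟨h1 i, h2 i⟩⟩

/-- Vertical section. -/
def col (S : Set ℕ) (n : ℕ) : Set ℕ := {m | Nat.pair n m ∈ S}

/-- The condition puts `S` in the product. -/
def In (p : Cond) (S : Set ℕ) : Prop := AS p.A {n | AS p.B (col S n)}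

lemma In.down {p q : Cond} {S : Set ℕ} (h : In p S) (hq : q ≤ p) : In q S :=
  (hq.1.trans h).mono fun _ hn => hq.2.trans hn

lemma In.mono {p : Cond} {S T : Set ℕ} (h : In p S) (hq : S ⊆ T) : In p T :=
  AS.mono h fun _ hn => AS.mono hn fun _ hm => hq hm

lemma In.inter {p : Cond} {S T : Set ℕ} (h : In p S) (h' : In p T) : In p (S ∩ T) :=
  (AS.inter h h').mono fun _ hn => AS.inter hn.1 hn.2

lemma In.exists {p : Cond} {S : Set ℕ} (h : In p S) (k : ℕ) : ∃ n, k < n ∧ AS p.B (col S n) := by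
  obtain ⟨n, h1, h2⟩ := (AS.infinite h p.hA).exists_gt k
  exact ⟨n, h2, h1⟩

lemma col_finite {S : Set ℕ} (h : S.Finite) (n : ℕ) : (col S n).Finite :=
  h.preimage fun _ _ _ _ hab => (Nat.pair_eq_pair.1 hab).2

lemma decide_set (p : Cond) (S : Set ℕ) : ∃ q ≤ p, In q S ∨ In q Sᶜ := by
  obtain ⟨q, hq, h⟩ := baire closed (fun n => {q | AS q.B (col S n) ∨ AS q.B (col Sᶜ n)})
    (fun n q hq r hr => hq.imp (fun h => hr.2.trans h) fun h => hr.2.trans h) p (by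
      intro n q _
      by_cases h : (q.B ∩ col S n).Infinite
      · exact ⟨⟨q.A, _, q.hA, h⟩, ⟨AS.refl _, AS.of_subset inter_subset_left⟩,
          Or.inl (AS.of_subset inter_subset_right)⟩
      · refine ⟨q, le_rfl, Or.inr ((not_infinite.1 h).subset fun x hx => ⟨hx.1, ?_⟩)⟩
        by_contra hc
        exact hx.2 hc)
  by_cases h1 : (q.A ∩ {n | AS q.B (col S n)}).Infinite
  · exact ⟨⟨_, q.B, h1, q.hB⟩, le_trans ⟨AS.of_subset inter_subset_left, AS.refl _⟩ hq,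
      Or.inl (AS.of_subset inter_subset_right)⟩
  · refine ⟨q, hq, Or.inr ((not_infinite.1 h1).subset fun n hn => ⟨hn.1, ?_⟩)⟩
    exact (h n).resolve_right hn.2

/-- The name of the product. -/
def UU (S : Set ℕ) : Set Cond := {p | In p S}

lemma of_meets {S : Set ℕ} {p : Cond} (h : p ∈ meets (UU S)) : ∃ q ≤ p, In q S := by
  obtain ⟨r, hr, s, hs, h1⟩ := h p le_rfl
  exact ⟨r, hr, In.down hs h1⟩

lemma isUltra (p : Cond) : p ∈ IsUltra UU := by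
  refine ⟨fun S hS q _ h => ?_, fun S T => mem_fimp.2 fun q _ h => ?_,
    fun S T hST => mem_fimp.2 fun q _ h => ?_, fun S => mem_fimp.2 fun q _ h => ?_⟩
  · obtain ⟨r, -, h1⟩ := of_meets h
    obtain ⟨n, -, hn⟩ := h1.exists 0
    exact hn.infinite r.hB (col_finite hS n)
  · obtain ⟨r, hr, h1⟩ := of_meets h.1
    obtain ⟨s, hs, h2⟩ := of_meets (meets_down h.2 hr)
    exact ⟨s, hs.trans hr, meets_self ((h1.down hs).inter h2)⟩
  · obtain ⟨r, hr, h1⟩ := of_meets h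
    exact ⟨r, hr, meets_self (h1.mono hST)⟩
  · obtain ⟨r, hr, h1 | h1⟩ := decide_set q S
    · exact absurd (meets_self (N := UU S) h1) (h r hr)
    · exact ⟨r, hr, meets_self h1⟩

lemma notPPoint (p : Cond) : p ∈ fnot (PPoint UU) := by
  intro q _ h
  obtain ⟨r, -, h1⟩ := mem_fimp.1 (h fun k => {x | k < (Nat.unpair x).1}) q le_rfl (fun k =>
    meets_self (((finite_Iic k).subset fun n hn => by
      by_contra hc
      refine hn.2 (AS.of_subset fun m _ => ?_)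
      simpa [col] using hc)))
  obtain ⟨s, -, B, h2, h3⟩ := mem_fex.1 h1 r le_rfl
  obtain ⟨t, -, h4⟩ := of_meets h2
  obtain ⟨n, -, hn⟩ := h4.exists 0
  refine hn.infinite t.hB ((col_finite (h3 n) n).subset fun m hm => ⟨hm, ?_⟩)
  simp

lemma core (r₀ : Cond) (Val : Cond → Set ℕ → Set ℕ → Prop)
    (mono : ∀ s t, t ≤ s → ∀ C Y, Val s C Y → Val t C Y)
    (tot : ∀ s ≤ r₀, ∀ C, AS s.B C → ∃ t ≤ s, ∃ Y, Val t C Y ∧ In t Y) :
    ∃ s ≤ r₀, ∃ (C Y : ℕ → Set ℕ) (D : Set ℕ), In s D ∧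
      ∀ k ∈ s.B, k ∉ C k ∧ AS s.B (C k) ∧ Val s (C k) (Y k) ∧ AS D (Y k) := by
  classical
  let Data : Cond → ℕ × ℕ × Finset ℕ → Set ℕ × Set ℕ × Set ℕ → Prop := fun r t d =>
    Val r d.1 d.2.1 ∧ AS r.B d.1 ∧ t.1 ∉ d.1 ∧ AS r.A d.2.2 ∧ (∀ i ≤ t.2.1, i ∈ t.2.2 → i ∈ d.2.2) ∧
      ∀ i ∈ d.2.2, AS r.B (col d.2.1 i)
  have hD : ∀ r r', r' ≤ r → ∀ t d, Data r t d → Data r' t d :=
    fun r r' h t d ⟨h1, h2, h3, h4, h5, h6⟩ =>
      ⟨mono _ _ h _ _ h1, h.2.trans h2, h3, h.1.trans h4, h5, fun i hi => h.2.trans (h6 i hi)⟩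
  obtain ⟨q, hq, h⟩ := baire closed
    (fun t => {q | (∃ d, Data q t d) ∨ ∀ r ≤ q, ¬ ∃ d, Data r t d})
    (fun t q hq r hr => hq.imp (fun ⟨d, hd⟩ => ⟨d, hD _ _ hr _ _ hd⟩)
      fun h s hs => h s (hs.trans hr)) r₀ (by
      intro t q _
      by_cases h : ∀ r ≤ q, ¬ ∃ d, Data r t d
      · exact ⟨q, le_rfl, Or.inr h⟩
      · simp only [not_forall, not_not] at h
        obtain ⟨r, hr, h⟩ := h
        exact ⟨r, hr, Or.inl h⟩)
  have h1 : ∀ t, ∃ d : Set ℕ × Set ℕ × Set ℕ, AS q.A d.2.2 ∧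
      ∀ r ≤ q, (∃ d', Data r t d') → Data q t d := by
    intro t
    rcases h t with ⟨d, hd⟩ | h2
    · exact ⟨d, hd.2.2.2.1, fun _ _ _ => hd⟩
    · exact ⟨(univ, univ, univ), AS.of_subset (subset_univ _), fun r hr h3 => absurd h3 (h2 r hr)⟩
  choose d hd1 hd2 using h1
  obtain ⟨A', hA1, hA2, hA3⟩ := exists_thin q.hA
    (fun n => ⋂ t ∈ (Iic n ×ˢ (Finset.powerset (Finset.range (n + 1)) : Set (Finset ℕ))),
      (d (t.1, n, t.2)).2.2)
    (fun n => AS.biInter ((finite_Iic n).prod (Finset.finite_toSet _)) fun t _ => hd1 _)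
  obtain ⟨B0, B1, hB0, hB1, hB2, hB3, hB4⟩ := exists_split q.hB
  have hq1 : (⟨A', B0, hA2, hB0⟩ : Cond) ≤ q := ⟨AS.of_subset hA1, AS.of_subset hB2⟩
  obtain ⟨r, hr, Y', h2, h3⟩ := tot _ (hq1.trans hq) B0 (AS.refl _)
  let Z : Set ℕ := A' ∩ {n | AS r.B (col Y' n)}
  have hZ : AS r.A Z := AS.inter hr.1 h3
  have hZ1 : Z.Infinite := hZ.infinite r.hA
  have hs : (⟨Z, B1, hZ1, hB1⟩ : Cond) ≤ q :=
    ⟨AS.of_subset (inter_subset_left.trans hA1), AS.of_subset hB3⟩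
  have h4 : ∀ k, ∃ CY : Set ℕ × Set ℕ, k ∈ B1 → k ∉ CY.1 ∧ AS q.B CY.1 ∧ Val q CY.1 CY.2 ∧
      ∀ n ∈ Z, AS q.B (col CY.2 n) := by
    intro k
    by_cases hk : k ∈ B1
    swap
    · exact ⟨(∅, ∅), fun h => absurd h hk⟩
    obtain ⟨a, ha, hka⟩ := hA2.exists_gt k
    let s : Finset ℕ := (Finset.range (a + 1)).filter fun i => i ∈ Z
    obtain ⟨h5, h6, h7, -, h8, h9⟩ := hd2 (k, a, s) r (hr.trans hq1)
      ⟨(B0, Y', Z), h2, hr.2, hB4 k hk, hZ, fun i _ hi => (Finset.mem_filter.1 hi).2,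
        fun i hi => hi.2⟩
    refine ⟨(_, _), fun _ => ⟨h7, h6, h5, fun n hn => h9 n ?_⟩⟩
    rcases le_or_gt n a with h10 | h10
    · exact h8 n h10 (Finset.mem_filter.2 ⟨Finset.mem_range.2 (by omega), hn⟩)
    · exact mem_iInter₂.1 (hA3 a ha n hn.1 h10) (k, s)
        ⟨hka.le, Finset.mem_coe.2 (Finset.mem_powerset.2 (Finset.filter_subset _ _))⟩
  choose CY hCY using h4
  let E : ℕ → Set ℕ := fun n => B1 ∩ ⋂ k ∈ B1 ∩ Iic n, col (CY k).2 n
  refine ⟨_, hs.trans hq, fun k => (CY k).1, fun k => (CY k).2,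
    {x | (Nat.unpair x).1 ∈ Z ∧ (Nat.unpair x).2 ∈ E (Nat.unpair x).1},
    AS.of_subset fun n hn => ?_, fun k hk => ⟨(hCY k hk).1, hs.2.trans (hCY k hk).2.1,
      mono _ _ hs _ _ (hCY k hk).2.2.1, ?_⟩⟩
  · have h5 : AS B1 (E n) := AS.inter (AS.refl _) (AS.biInter
      ((finite_Iic n).inter_of_right _) fun k hk => hs.2.trans ((hCY k hk.1).2.2.2 n hn))
    refine h5.mono fun m hm => ?_
    simp only [col, mem_ofPred_eq, Nat.unpair_pair]
    exact ⟨hn, hm⟩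
  · have h5 : (⋃ n ∈ Z ∩ Iio k, Nat.pair n '' (B1 \ col (CY k).2 n)).Finite :=
      ((finite_Iio k).inter_of_right _).biUnion fun n hn =>
        Finite.image _ (hs.2.trans ((hCY k hk).2.2.2 n hn.1))
    refine h5.subset ?_
    rintro x ⟨⟨h6, h7, h8⟩, h9⟩
    have h10 : (Nat.unpair x).2 ∉ col (CY k).2 (Nat.unpair x).1 := by
      simpa [col] using h9
    refine mem_biUnion (x := (Nat.unpair x).1) ⟨h6, ?_⟩ ⟨_, ⟨h7, h10⟩, Nat.pair_unpair x⟩
    by_contra hc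
    exact h10 (mem_iInter₂.1 h8 k ⟨hk, mem_Iic.2 (not_lt.1 hc)⟩)

lemma notTukey (p : Cond) : p ∈ fnot (TukeyLE UU Sup UU SupStar) := by
  intro q _ h
  obtain ⟨r₀, -, Val, h1, h2, h3⟩ := of_tukeyLE h
  let cyl : Set ℕ → Set ℕ := fun C => {x | (Nat.unpair x).2 ∈ C}
  have hc : ∀ (s : Cond) C, AS s.B C → In s (cyl C) := fun s C h =>
    AS.of_subset fun n _ => h.mono fun m hm => by simpa [col, cyl] using hm
  obtain ⟨s, hs, C, Y, D, h4, h5⟩ := core r₀ (fun s C Y => Val s (cyl C) Y)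
    (fun s t ht C Y h => h1 s t ht _ _ h) (fun s hs C hC => by
      obtain ⟨t, ht, Y, h4, h5⟩ := h2 s hs (cyl C) (meets_self (hc s C hC))
      obtain ⟨u, hu, h6⟩ := of_meets h5
      exact ⟨u, hu.trans ht, Y, h1 _ _ hu _ _ h4, h6⟩)
  obtain ⟨t, ht, b, h6, h7⟩ := h3 s hs s.B (fun k => cyl (C k)) Y D (meets_self h4)
    fun k hk => ⟨meets_self (hc _ _ (h5 k hk).2.1), (h5 k hk).2.2.1, (h5 k hk).2.2.2⟩
  obtain ⟨u, hu, h8⟩ := of_meets h6
  obtain ⟨n, -, hn⟩ := h8.exists 0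
  obtain ⟨m, h9, h10⟩ := ((hn.inter (hu.trans ht).2).infinite u.hB).nonempty
  have h11 := h7 m h10 h9
  refine (h5 m h10).1 ?_
  simpa [cyl] using h11

theorem main : ∃ (P : Type) (_ : Preorder P), Nonempty P ∧ ∀ p : P, p ∈ NoNew P ∧
    p ∈ fex fun U : Set ℕ → Set P => fand (IsUltra U) (fand (fnot (PPoint U))
      (fand (TukeyLE U SupStar U Sup) (fnot (TukeyLE U Sup U SupStar)))) :=
  ⟨Cond, inferInstance, inferInstance, fun p => ⟨noNew closed p, mem_fex.2 fun q _ =>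
    ⟨q, le_rfl, UU, isUltra q, notPPoint q,
      tukeyLE_id UU (fun _ _ h => AS.of_subset h) q, notTukey q⟩⟩⟩

end Pool.Agent.H909Z.Tk.One
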